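import Pool.Agent.H370R3.BX.Stmts

/-! Project BX (helper370): the main lemma (`TaskMain`). -/

set_option autoImplicit false

open Set Filter Topology unitInterval

namespace Pool.Agent.H662R3.BX

open Pool.Agent.H370R3.BX

variable {A : Type} [TopologicalSpace A]

theorem res_res (K : SCx A) {l m n : ℕ} (h : K.X m ⊆ K.X n) (h' : K.X l ⊆ K.X m)
    (h'' : K.X l ⊆ K.X n) (L : Set A) {Y : Type} [TopologicalSpace Y] {y0 : Y}
    (z : K.GG n L Y y0) : K.res h' L (K.res h L z) = K.res h'' L z := by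
  induction z using Quotient.inductionOn with
  | h p => rfl

theorem res_forget (K : SCx A) {m n : ℕ} (h : K.X m ⊆ K.X n) {L L' : Set A} (hL : L' ⊆ L)
    {Y : Type} [TopologicalSpace Y] {y0 : Y} (z : K.GG n L Y y0) :
    K.res h L' (K.forget hL z) = K.forget hL (K.res h L z) := by
  induction z using Quotient.inductionOn with
  | h p => rfl

theorem Xl_succ (K : SCx A) (hK : K.Ok) (n : ℕ) : K.Xl (n + 1) = K.X n := by
  ext a
  constructor
  · rintro ⟨m, hm, ha⟩
    exact (monotone_nat_of_le_succ (f := K.X) hK.mono (Nat.lt_succ_iff.1 hm)) ha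
  · intro ha
    exact ⟨n, Nat.lt_succ_self n, ha⟩

theorem Xl_zero (K : SCx A) : K.Xl 0 = ∅ := by
  ext a
  simp [SCx.Xl]

theorem relCells (K : SCx A) (hK : K.Ok) (n : ℕ) :
    RelCells ↥(K.X n) {x | x.1 ∈ K.Xl n} (K.E n) n (K.κ' hK n) where
  closed := by
    have : IsClosed (K.Xl n) := by
      cases n with
      | zero => rw [Xl_zero]; exact isClosed_empty
      | succ n => rw [Xl_succ K hK]; exact hK.closed n
    exact this.preimage continuous_subtype_val
  bd := fun j t => hK.bd n j t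
  inj := fun j j' t t' h h' => hK.inj n j j' t t' (congrArg Subtype.val h) h'
  cover := fun d hd => by
    obtain ⟨e, t, h⟩ := hK.cover n d.1 d.2 hd
    exact ⟨e, t, Subtype.ext h⟩

theorem taskMain : TaskMain := by
  intro tZ tB tTwo hat htpy retc glue csurj cinj comm exact' A _ _ _ K hK k hk Y _ y0 u hu hodd n
  induction n with
  | zero =>
    intro hn
    refine ⟨1, odd_one, ?_⟩
    rw [pow_one]
    exact hu
  | succ n ih =>
    intro hn
    obtain ⟨N, hN, hNu⟩ := ih (by omega)
    have h2 : n + 2 ≤ k := by omega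
    have hsub : K.X n ⊆ K.X (n + 2) := (hK.mono n).trans (hK.mono (n + 1))
    have hy1 : K.res hsub ∅ (K.res (hk (n + 2) h2) ∅ (u ^ N)) = 1 := by
      rw [res_res K (hk (n + 2) h2) hsub (hk n (by omega))]
      exact hNu
    obtain ⟨z', hz'⟩ := tTwo exact' retc A K hK n hsub Y y0 _ hy1
    letI : AddCommGroup (Additive (PiC (n + 1) Y y0)) :=
      { (inferInstance : AddGroup (Additive (PiC (n + 1) Y y0))) with
        add_comm := fun a b => comm n Y y0 a b }
    let θ : PiC (n + 1) Y y0 → Additive (PiC (n + 1) Y y0) := Additive.ofMul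
    have hθ : ∀ a b, θ (a * b) = θ a + θ b := fun a b => rfl
    have hθpow : ∀ (a : PiC (n + 1) Y y0) (m : ℕ), θ (a ^ m) = m • θ a := fun a m => rfl
    have hθinj : Function.Injective θ := fun a b h => h
    have hcoc := tZ hat A K hK (n + 1) Y y0 z' (Additive (PiC (n + 1) Y y0)) θ hθ
    obtain ⟨M, b, hM, hb⟩ := hodd n hn (Additive (PiC (n + 1) Y y0))
      (fun e => θ (K.coch hK (K.res (hK.mono (n + 1)) (K.Xl (n + 1)) z') e)) hcoc
    obtain ⟨z'', hz'', hcob⟩ := tB hat htpy retc glue csurj A K hK n Y y0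
      (fun e => Additive.toMul (b e))
    have hcob' := hcob (Additive (PiC (n + 1) Y y0)) θ hθ
    set z1 := K.res (hK.mono (n + 1)) (K.Xl (n + 1)) z' with hz1
    have heq : ∀ e, K.coch hK z'' e = K.coch hK (z1 ^ M) e := by
      intro e
      apply hθinj
      have h3 : K.coch hK (z1 ^ M) e = (K.coch hK z1 e) ^ M := by
        unfold SCx.coch
        rw [map_pow]
      rw [h3, hθpow, hb, hcob']
      rfl
    haveI : Finite (K.E (n + 1)) := hK.fin (n + 1)
    haveI : CompactSpace ↥(K.X (n + 1)) := isCompact_iff_compactSpace.1 (hK.closed (n + 1)).isCompact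
    have hz : z'' * (z1 ^ M)⁻¹ = 1 := by
      refine cinj ↥(K.X (n + 1)) {x | x.1 ∈ K.Xl (n + 1)} (K.E (n + 1)) (n + 1) (K.κ' hK (n + 1))
        (relCells K hK (n + 1)) Y y0 _ fun e => ?_
      rw [map_mul, map_inv]
      have := heq e
      unfold SCx.coch at this
      rw [this, mul_inv_cancel]
    have hz2 : z'' = z1 ^ M := mul_inv_eq_one.1 hz
    refine ⟨N * M, hN.mul hM, ?_⟩
    have h4 : K.forget (empty_subset _) (z1 ^ M) = (1 : K.GG (n + 1) ∅ Y y0) := by
      rw [← hz2]; exact hz''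
    rw [map_pow, hz1, ← res_forget, hz', res_res K (hk (n + 2) h2) (hK.mono (n + 1))
      (hk (n + 1) hn.le), ← map_pow, ← pow_mul] at h4
    exact h4

end Pool.Agent.H662R3.BX
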